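import Mathlib
import Pool.Agent.TH202.Defs

/-!
# Proper algebraic spaces as models of a function field, and their log terminal models

Let `K` be a finitely generated field over `ℂ`. A normal proper algebraic space `Y` over `ℂ` with
function field `K` (equivalently, a normal Moishezon space with field of meromorphic functions `K`)
is described by the valuations of its étale charts.
-/

set_option autoImplicit false

namespace Pool.Agent.V1158.SM

open Pool.Agent.H436R3.Fol Pool.Agent.TH202

/-- The valuation `v'` of the extension `L` of `K` extends the valuation `v` of `K`, without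
ramification: a uniformizer of `v` is a uniformizer of `v'`. -/
def Ext {K L : Type} [Field K] [Algebra ℂ K] [Field L] [Algebra ℂ L] [Algebra K L]
    (v : DVal K) (v' : DVal L) : Prop :=
  ∀ f : K, f ≠ 0 → v'.ord (algebraMap K L f) = v.ord f

/-- An étale covering, by normal affine varieties `U i` with function fields `L i`, of a normal
proper algebraic space `Y` with function field `K`.

If `U i → Y` is étale and `v'` is a discrete valuation of `L i` whose ring contains the coordinate
ring of `U i`, then `v'` restricts to a discrete valuation of `K`, without ramification (`etale`).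
If the `U i` cover the proper space `Y`, then every discrete valuation `v` of `K` has a centre on
`Y`, and it extends without ramification to a valuation of some `L i` with a centre on `U i`
(`cover`). -/
structure SpaceModel (K : Type) [Field K] [Algebra ℂ K] where
  ι : Type
  L : ι → Type
  [field : ∀ i, Field (L i)]
  [algC : ∀ i, Algebra ℂ (L i)]
  [algK : ∀ i, Algebra K (L i)]
  [tower : ∀ i, IsScalarTower ℂ K (L i)]
  finite : ∀ i, Module.Finite K (L i)
  U : ∀ i, NormalAffine (L i)
  etale : ∀ i, ∀ v' : DVal (L i), (∀ f ∈ (U i).R, v'.Reg f) → ∃ v : DVal K, Ext v v'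
  cover : ∀ v : DVal K, ∃ i, ∃ v' : DVal (L i), (∀ f ∈ (U i).R, v'.Reg f) ∧ Ext v v'

attribute [instance] SpaceModel.field SpaceModel.algC SpaceModel.algK SpaceModel.tower

variable {K : Type} [Field K] [Algebra ℂ K]

/-- The centre on `Spec R` of the valuation `v'` contains the point given by the prime ideal `p`. -/
def Passes {L : Type} [Field L] [Algebra ℂ L] (U : NormalAffine L) (p : Ideal U.R)
    (v' : DVal L) : Prop :=
  (∀ f ∈ U.R, v'.Reg f) ∧ ∀ s : U.R, v'.Pos (s : L) → s ∈ p

/-- `v` is the valuation of a prime divisor on `Y`. -/
def SpaceModel.IsPrime (Y : SpaceModel K) (v : DVal K) : Prop :=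
  ∃ i, ∃ v' : DVal (Y.L i), Ext v v' ∧ IsLocalRing' (Y.U i).R v'

/-- The function `D` is the b-divisor of the pull-backs of an `ℝ`-Cartier divisor on `Y`: near every
point of the charts it is a real linear combination of principal divisors. -/
def SpaceModel.IsRCar (Y : SpaceModel K) (D : DVal K → ℝ) : Prop :=
  ∀ i, ∀ p : Ideal (Y.U i).R, p.IsPrime → ∃ P ∈ Prin (Y.L i), ∀ (v : DVal K) (v' : DVal (Y.L i)),
    Passes (Y.U i) p v' → Ext v v' → D v = P v'

variable {d : ℕ}

/-- The conditions of a log terminal model `Y` of the pair `(X, B + β)`, weakened and without the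
conditions on the singularities of `Y`. Here `Y` is any normal proper algebraic space with function
field `K`, the canonical divisors are given by the basis `T` of the rational vector fields, and `D`
is the b-divisor of the pull-backs of `K_X + B + β_X`.

* The birational map `X ⇢ Y` does not extract divisors.
* `K_Y + B + β_Y` is `ℝ`-Cartier, and `E` is the b-divisor of its pull-backs.
* The pull-back of `K_Y + B + β_Y` to some projective variety is nef.
* The log discrepancies of the prime divisors on `X` that are contracted do not decrease. -/
def IsWeakModel (T : Foliation K d) (X : Model K) (B β D : DVal K → ℝ) (Y : SpaceModel K)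
    (E : DVal K → ℝ) : Prop :=
  (∀ w, Y.IsPrime w → IsPrimeOn X w) ∧
  (Y.IsRCar E ∧ ∀ w, Y.IsPrime w → ∀ n : ℤ, IsCanOrd T w n → E w = n + B w + β w) ∧
  (∃ W : Model K, IsNef W E) ∧
  ∀ w, IsPrimeOn X w → ¬ Y.IsPrime w → E w ≤ D w

end Pool.Agent.V1158.SM
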