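import Mathlib
import Pool.Agent.V1158.SM.Aff
import Pool.Agent.TH202.Dom
import Pool.Agent.TH202.NegB

/-!
# Divisors on proper algebraic spaces: domination, and the descent of the irrational class
-/

set_option autoImplicit false

namespace Pool.Agent.V1158.SM

open Pool.Agent.H436R3.Fol Pool.Agent.TH202 MvPolynomial

variable {K : Type} [Field K] [Algebra ℂ K]

section ext

variable {L : Type} [Field L] [Algebra ℂ L] [Algebra K L]

theorem algMap_ne {g : K} (hg : g ≠ 0) : algebraMap K L g ≠ 0 :=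
  (map_ne_zero_iff _ (algebraMap K L).injective).2 hg

/-- Pull-back of real principal divisors. -/
theorem prin_ext (L : Type) [Field L] [Algebra ℂ L] [Algebra K L] {P : DVal K → ℝ}
    (hP : P ∈ Prin K) : ∃ Q ∈ Prin L, ∀ (v : DVal K) (v' : DVal L), Ext v v' → Q v' = P v := by
  obtain ⟨m, r, g, hg, hPv⟩ := exists_rep hP
  refine ⟨∑ i, r i • dv (algebraMap K L (g i)), Submodule.sum_mem _ fun i _ =>
    (Prin L).smul_mem _ (dv_mem (algMap_ne (hg i))), fun v v' h => ?_⟩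
  rw [hPv, Finset.sum_apply]
  refine Finset.sum_congr rfl fun i _ => ?_
  rw [Pi.smul_apply, smul_eq_mul, dv, h _ (hg i)]

end ext

theorem SpaceModel.IsRCar.sub_prin {Y : SpaceModel K} {D P : DVal K → ℝ} (hD : Y.IsRCar D)
    (hP : P ∈ Prin K) : Y.IsRCar (D - P) := by
  intro i p hp
  obtain ⟨Q, hQ, hQD⟩ := hD i p hp
  obtain ⟨R, hR, hRP⟩ := prin_ext (Y.L i) hP
  refine ⟨Q - R, (Prin (Y.L i)).sub_mem hQ hR, fun v v' h1 h2 => ?_⟩
  rw [Pi.sub_apply, Pi.sub_apply, hQD v v' h1 h2, hRP v v' h2]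

/-- A nef divisor is dominated by an `ℝ`-Cartier divisor on a proper algebraic space if this holds
on the prime divisors of the space. -/
theorem domS {X : Model K} {Y : SpaceModel K} {N D : DVal K → ℝ} (hN : IsNef X N)
    (hD : Y.IsRCar D) (h : ∀ w, Y.IsPrime w → N w ≤ D w) (v : DVal K) : N v ≤ D v := by
  obtain ⟨i, v', hreg, hext⟩ := Y.cover v
  obtain ⟨p, hp, hpv, -⟩ := exists_cenA (Y.U i) v' hreg
  obtain ⟨Q, hQ, hQD⟩ := hD i p hp
  -- a common denominator of the homogeneous coordinates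
  choose a b ha hb hb0 hab using fun j => (Y.U i).frac (algebraMap K (Y.L i) (X.ξ j))
  have hB : ∏ k, b k ≠ 0 := Finset.prod_ne_zero_iff.2 fun k _ => hb0 k
  have hmem : ∀ j, algebraMap K (Y.L i) (X.ξ j) * ∏ k, b k ∈ (Y.U i).R := by
    intro j
    rw [← Finset.mul_prod_erase Finset.univ b (Finset.mem_univ j), ← mul_assoc, hab j]
    exact mul_mem (ha j) (Subalgebra.prod_mem _ fun k _ => hb k)
  set s : Y.L i := ∏ k, b k with hs
  have hH : ∀ (w : DVal K) (w' : DVal (Y.L i)), (∀ f ∈ (Y.U i).R, w'.Reg f) → Ext w w' →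
      X.H w ≤ (w'.ord s : ℝ) := by
    intro w w' hw' hww
    rw [Model.H, Lin_le_iff]
    intro j
    have h1 := (hw' _ (hmem j)).resolve_left (mul_ne_zero (algMap_ne (X.ne j)) hB)
    rw [w'.map_mul _ _ (algMap_ne (X.ne j)) hB, hww _ (X.ne j)] at h1
    have h2 : (0 : ℝ) ≤ ((w.ord (X.ξ j) + w'.ord s : ℤ) : ℝ) := by exact_mod_cast h1
    push_cast at h2
    linarith
  have key : ∀ δ : ℝ, 0 < δ → N v ≤ D v + δ * ((v'.ord s : ℝ) - X.H v) := by
    intro δ hδ
    obtain ⟨P, hP, hPle, hPv⟩ := nef_touch hN hδ v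
    obtain ⟨P', hP', hPP⟩ := prin_ext (Y.L i) hP
    have hE : Q + δ • dv s - P' ∈ Prin (Y.L i) :=
      (Prin (Y.L i)).sub_mem ((Prin (Y.L i)).add_mem hQ ((Prin (Y.L i)).smul_mem _ (dv_mem hB))) hP'
    have h1 := real_hartogsA hp hE (fun w' hw' hpw' => ?_) v' hpv
    · simp only [Pi.sub_apply, Pi.add_apply, Pi.smul_apply, smul_eq_mul, dv] at h1
      rw [hPP v v' hext, ← hQD v v' hpv hext, hPv] at h1
      linarith
    · obtain ⟨w, hww⟩ := Y.etale i w' hw'.1
      simp only [Pi.sub_apply, Pi.add_apply, Pi.smul_apply, smul_eq_mul, dv]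
      rw [hPP w w' hww, ← hQD w w' hpw' hww]
      have h2 := hPle w
      have h3 := h w ⟨i, w', hww, hw'⟩
      have h4 := hH w w' hw'.1 hww
      have h5 := mul_le_mul_of_nonneg_left h4 hδ.le
      linarith
  by_contra hc
  push Not at hc
  set C := (v'.ord s : ℝ) - X.H v with hC
  have h1 := key ((N v - D v) / (2 * (|C| + 1))) (div_pos (by linarith) (by positivity))
  have h2 : (N v - D v) / (2 * (|C| + 1)) * C ≤ (N v - D v) / 2 := by
    have h3 : (N v - D v) / (2 * (|C| + 1)) * C ≤ (N v - D v) / (2 * (|C| + 1)) * (|C| + 1) :=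
      mul_le_mul_of_nonneg_left (by linarith [le_abs_self C]) (div_nonneg (by linarith) (by positivity))
    have h4 : (N v - D v) / (2 * (|C| + 1)) * (|C| + 1) = (N v - D v) / 2 := by
      have : |C| + 1 ≠ 0 := by positivity
      field_simp
    linarith
  linarith

/-- If the irrational class is `ℝ`-Cartier on the algebraic space `Y`, then the strict transform of
`c = 0` is a divisor on `Y`. -/
theorem b_stepS {d : Dat K} (s : Sq d) (vS : DVal K)
    (hvS : IsS d vS) (Y : SpaceModel K) (N : DVal K → ℝ) (hN : Y.IsRCar N)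
    (heq : ∀ v, N v = bet s v) : Y.IsPrime vS := by
  obtain ⟨i, vS', hreg, hext⟩ := Y.cover vS
  have hfin := Y.finite i
  obtain ⟨p, hp, hpv, hx⟩ := exists_cenA (Y.U i) vS' hreg
  obtain ⟨P, hP, hPN⟩ := hN i p hp
  obtain ⟨m, r, g, hg, hPg⟩ := exists_rep hP
  obtain ⟨ℓ, hℓ1, hℓk⟩ := exists_functional
  have hya : s.y 2 ≠ 0 := s.y_ne _
  have hyb : s.y 1 ≠ 0 := s.y_ne _
  -- the rational identity
  have hrat : ∀ (v : DVal K) (v' : DVal (Y.L i)), Passes (Y.U i) p v' → Ext v v' →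
      ((ThZ s 2 v + ThZ s 1 v : ℤ) : ℚ) = ∑ j, ℓ (r j) * (v'.ord (g j) : ℚ) := by
    intro v v' hv hvv
    have h1 : bet s v = ∑ j, r j * (v'.ord (g j) : ℝ) := by rw [← heq v, hPN v v' hv hvv, hPg]
    have h2 : bet s v = ((ThZ s 3 v + ThZ s 2 v : ℤ) : ℚ) • (1 : ℝ)
        - ((ThZ s 2 v + ThZ s 1 v : ℤ) : ℚ) • kap := by
      change (Th s 3 v + Th s 2 v) - kap * (Th s 2 v + Th s 1 v) = _
      rw [Th_cast, Th_cast, Th_cast, Rat.smul_def, Rat.smul_def]
      push_cast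
      ring
    have h3 : (∑ j, r j * (v'.ord (g j) : ℝ)) = ∑ j, ((v'.ord (g j) : ℤ) : ℚ) • r j := by
      refine Finset.sum_congr rfl fun j _ => ?_
      rw [Algebra.smul_def, mul_comm]
      simp
    rw [h2, h3] at h1
    have h4 := congrArg ℓ h1
    rw [map_sub, map_smul, map_smul, hℓ1, hℓk, map_sum] at h4
    simp only [map_smul, smul_eq_mul, mul_zero, mul_neg, mul_one, zero_sub, neg_neg] at h4
    rw [h4]
    exact Finset.sum_congr rfl fun j _ => mul_comm _ _
  -- common denominator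
  obtain ⟨M, hM, e, he⟩ : ∃ M : ℕ, 0 < M ∧ ∃ e : Fin m → ℤ, ∀ j, (M : ℚ) * ℓ (r j) = e j := by
    refine ⟨∏ j, (ℓ (r j)).den, Finset.prod_pos fun j _ => (ℓ (r j)).den_pos,
      fun j => (∏ k ∈ Finset.univ.erase j, ((ℓ (r k)).den : ℤ)) * (ℓ (r j)).num, fun j => ?_⟩
    rw [← Finset.prod_erase_mul Finset.univ (fun k => (ℓ (r k)).den) (Finset.mem_univ j)]
    push_cast
    rw [mul_assoc, Rat.den_mul_eq_num]
  set G : Y.L i := ∏ j, g j ^ e j with hG
  have hG0 : G ≠ 0 := Finset.prod_ne_zero_iff.2 fun j _ => zpow_ne_zero _ (hg j)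
  have hGord : ∀ (v : DVal K) (v' : DVal (Y.L i)), Passes (Y.U i) p v' → Ext v v' →
      v'.ord G = M * (ThZ s 2 v + ThZ s 1 v) := by
    intro v v' hv hvv
    rw [hG, ordA_zprod v' g hg]
    have h1 := hrat v v' hv hvv
    have h2 : ((∑ j, v'.ord (g j) * e j : ℤ) : ℚ) =
        (((M : ℤ) * (ThZ s 2 v + ThZ s 1 v) : ℤ) : ℚ) := by
      push_cast at h1 ⊢
      rw [h1, Finset.mul_sum]
      refine Finset.sum_congr rfl fun j _ => ?_
      rw [← he j]
      ring
    exact_mod_cast h2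
  have hT0 : ∀ k v, 0 ≤ ThZ s k v := fun k v => le_max_left _ _
  have hT1 : ∀ k v, -v.ord (s.y k) ≤ ThZ s k v := fun k v => le_max_right _ _
  have hmem : ∀ F : Y.L i, F ≠ 0 → (∀ (v : DVal K) (v' : DVal (Y.L i)), Passes (Y.U i) p v' →
      Ext v v' → 0 ≤ v'.ord F) →
      MemA (Y.U i) p F := by
    intro F _ hF
    refine Pool.Agent.TH670.C8_HARTP.hartogs_local (Y.U i).fg (Y.U i).frac (Y.U i).normal p hp ?_
    intro w hw hwx
    obtain ⟨v, hv⟩ := Y.etale i w hw.1
    right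
    exact hF v w ⟨hw.1, hwx⟩ hv
  have hMZ : (0 : ℤ) < M := by exact_mod_cast hM
  have hGS : vS'.ord G = 0 := by
    rw [hGord vS vS' hpv hext, ThZ, ThZ, s.triv vS hvS, s.triv vS hvS]
    simp
  -- units of the local ring
  have hunit : ∀ F : Y.L i, F ≠ 0 → MemA (Y.U i) p F → vS'.ord F = 0 → MemA (Y.U i) p F⁻¹ := by
    intro F hF0 hF hFS
    obtain ⟨t, ht, htF⟩ := hF
    have ht0 : (t : Y.L i) ≠ 0 := fun h0 => ht ((hx t).2 (Or.inl h0))
    have hts : vS'.ord (t : Y.L i) = 0 := by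
      have h1 := vS'.ord_nonneg ht0 (hreg _ t.2)
      have h2 : ¬ 0 < vS'.ord (t : Y.L i) := fun h => ht ((hx t).2 (Or.inr h))
      omega
    have h3 : (⟨_, htF⟩ : (Y.U i).R) ∉ p := by
      rw [hx]
      rintro (h | h)
      · exact mul_ne_zero ht0 hF0 h
      · change 0 < vS'.ord ((t : Y.L i) * F) at h
        rw [vS'.map_mul _ _ ht0 hF0, hts, hFS] at h
        exact lt_irrefl _ h
    have h4 := memA_mul hp (memA_of_R hp t.2) (memA_inv h3)
    have h5 : (t : Y.L i) * ((t : Y.L i) * F)⁻¹ = F⁻¹ := by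
      field_simp
    have h6 : ((⟨_, htF⟩ : (Y.U i).R) : Y.L i) = (t : Y.L i) * F := rfl
    rwa [h6, h5] at h4
  have hGm : MemA (Y.U i) p G := by
    refine hmem G hG0 fun v v' hv hvv => ?_
    rw [hGord v v' hv hvv]
    exact mul_nonneg hMZ.le (add_nonneg (hT0 _ _) (hT0 _ _))
  have hGi : MemA (Y.U i) p G⁻¹ := hunit G hG0 hGm hGS
  set y' : ℕ → Y.L i := fun k => algebraMap K (Y.L i) (s.y k) with hy'
  have hpowmem : ∀ k, (k = 1 ∨ k = 2) → MemA (Y.U i) p (y' k ^ M) := by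
    intro k hk
    have hyk : s.y k ≠ 0 := s.y_ne k
    have hyk' : y' k ≠ 0 := algMap_ne hyk
    have h1 : MemA (Y.U i) p (y' k ^ M * G) := by
      refine hmem _ (mul_ne_zero (pow_ne_zero _ hyk') hG0) fun v v' hv hvv => ?_
      rw [v'.map_mul _ _ (pow_ne_zero _ hyk') hG0, v'.ord_pow hyk', hGord v v' hv hvv,
        hvv _ hyk, ← mul_add]
      refine mul_nonneg hMZ.le ?_
      have h2 := hT1 k v
      have h3 := hT0 1 v
      have h4 := hT0 2 v
      rcases hk with rfl | rfl <;> omega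
    have h2 := memA_mul hp h1 hGi
    rwa [mul_assoc, mul_inv_cancel₀ hG0, mul_one] at h2
  have hymem : ∀ k, (k = 1 ∨ k = 2) → MemA (Y.U i) p (y' k) := by
    intro k hk
    refine memA_of_root hp (Polynomial.X ^ M - Polynomial.C (y' k ^ M))
      (Polynomial.monic_X_pow_sub_C _ hM.ne') (fun j => ?_) (by simp)
    rw [Polynomial.coeff_sub, Polynomial.coeff_X_pow, Polynomial.coeff_C]
    have h1 : ∀ f g : Y.L i, MemA (Y.U i) p f → MemA (Y.U i) p g → MemA (Y.U i) p (f - g) :=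
      fun f g hf hg => (locA (Y.U i) p hp).sub_mem hf hg
    apply h1
    · split_ifs
      · exact (locA (Y.U i) p hp).one_mem
      · exact (locA (Y.U i) p hp).zero_mem
    · split_ifs
      · exact hpowmem k hk
      · exact (locA (Y.U i) p hp).zero_mem
  have hordy : ∀ k, vS'.ord (y' k) = 0 := fun k => by
    rw [hy']
    change vS'.ord (algebraMap K (Y.L i) (s.y k)) = 0
    rw [hext _ (s.y_ne k), s.triv vS hvS]
  have ha : MemA (Y.U i) p (algebraMap K (Y.L i) d.a) := by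
    have := hunit (y' 2) (algMap_ne hya) (hymem 2 (Or.inr rfl)) (hordy 2)
    change MemA (Y.U i) p (algebraMap K (Y.L i) (s.y 2))⁻¹ at this
    rwa [s.y2, map_inv₀, inv_inv] at this
  have hb : MemA (Y.U i) p (algebraMap K (Y.L i) d.b) := by
    have := hunit (y' 1) (algMap_ne hyb) (hymem 1 (Or.inl rfl)) (hordy 1)
    change MemA (Y.U i) p (algebraMap K (Y.L i) (s.y 1))⁻¹ at this
    rwa [s.y1, map_inv₀, inv_inv] at this
  have halg : ∀ f : K, IsAlgebraic (Algebra.adjoin ℂ (Set.range ![d.a, d.b, d.c])) f := by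
    have h1 := s.alg 1 le_rfl
    rw [s.y1, s.y2, inv_inv, inv_inv] at h1
    exact h1
  -- the transcendence basis of `L i`
  set φ : K →ₐ[ℂ] Y.L i := IsScalarTower.toAlgHom ℂ K (Y.L i) with hφ
  have hφa : ∀ f, φ f = algebraMap K (Y.L i) f := fun f => rfl
  have hvec3 : (![φ d.a, φ d.b, φ d.c] : Fin 3 → Y.L i) = φ ∘ ![d.a, d.b, d.c] := by
    funext j
    fin_cases j <;> rfl
  have hvec2 : (![φ d.a, φ d.b] : Fin 2 → Y.L i) = φ ∘ ![d.a, d.b] := by
    funext j
    fin_cases j <;> rfl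
  have hind' : AlgebraicIndependent ℂ ![φ d.a, φ d.b, φ d.c] := by
    rw [hvec3]
    exact d.ind.map' φ.injective
  have hbasK : IsTranscendenceBasis ℂ ![d.a, d.b, d.c] := by
    rw [d.ind.isTranscendenceBasis_iff_isAlgebraic]
    exact ⟨halg⟩
  have hbasL : IsTranscendenceBasis ℂ ![φ d.a, φ d.b, φ d.c] := by
    have h1 : Algebra.IsAlgebraic K (Y.L i) := Algebra.IsAlgebraic.of_finite K (Y.L i)
    have h2 : Algebra.trdeg ℂ (Y.L i) = 3 := by
      rw [← _root_.trdeg_add_eq ℂ K (A := Y.L i), _root_.trdeg_eq_zero (R := K) (A := Y.L i), add_zero,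
        ← hbasK.cardinalMk_eq_trdeg]
      simp
    refine hind'.isTranscendenceBasis_of_trdeg_le ?_ ?_
    · rw [h2]
      exact_mod_cast Cardinal.natCast_lt_aleph0 (n := 3)
    · rw [h2]
      simp
  refine ⟨i, vS', hext, primeOfA hp (φ d.a) (φ d.b) (φ d.c) hind' (fun f => ?_) vS' ?_ hx hreg
    ha hb⟩
  · exact hbasL.isAlgebraic.1 f
  · intro q hq
    rw [hvec2]
    have h1 : aeval (φ ∘ ![d.a, d.b]) q = φ (aeval ![d.a, d.b] q) := by
      rw [MvPolynomial.comp_aeval_apply]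
      rfl
    rw [h1]
    have h2 : aeval ![d.a, d.b] q ≠ 0 := by
      intro h0
      have hab : AlgebraicIndependent ℂ ![d.a, d.b] := by
        have := d.ind.comp (Fin.castSucc : Fin 2 → Fin 3) (Fin.castSucc_injective 2)
        have h7 : (![d.a, d.b, d.c] ∘ (Fin.castSucc : Fin 2 → Fin 3)) = ![d.a, d.b] := by
          funext j
          fin_cases j <;> rfl
        rwa [h7] at this
      exact hq ((algebraicIndependent_iff.1 hab) q h0)
    rw [hφa, hext _ h2]
    exact hvS.1 q hq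

end Pool.Agent.V1158.SM
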