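import Mathlib
import Pool.Agent.V1158.SM.Dom
import Pool.Agent.Y131.IF.NoLC

/-!
# No weak models among the proper algebraic spaces
-/

set_option autoImplicit false

namespace Pool.Agent.V1158.SM

open Pool.Agent.H436R3.Fol Pool.Agent.TH202 MvPolynomial
open Pool.Agent.TH89.FL_SMT (small_three L_eq_Th)

variable {K : Type} [Field K] [Algebra ℂ K] [Algebra.EssFiniteType ℂ K]

theorem no_model_space {d : Dat K} (h : XiAlg d) (s : Sq d) (hfil : FilV s) (T : Foliation K 3)
    (hT : IsPd d T) (k : ℕ) (hk : 1 ≤ k) (Y : SpaceModel K) (E : DVal K → ℝ) :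
    ¬ IsWeakModel T (M3 s k hk) 0 (bt s) (Dn s k) Y E := by
  rintro ⟨hprime, ⟨hrc, hadj⟩, ⟨W, hnef⟩, hdisc⟩
  obtain ⟨vS, hvS, hvc, huniq⟩ := Pool.Agent.TH189.C8_VS.exists_vS d
  set X := Xd d h with hX
  set N : DVal K → ℝ := E - pr d with hN
  have hNrc : Y.IsRCar N := hrc.sub_prin (pr_mem d)
  have hNnef : IsNef W N := by
    refine ⟨hnef.1.sub (rcar_of_prin (pr_mem d)), fun δ hδ => ?_⟩
    obtain ⟨F, hF, P, hP, hFP⟩ := hnef.2 δ hδ
    refine ⟨F, hF, P - pr d, (Prin K).sub_mem hP (pr_mem d), fun v => ?_⟩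
    simp only [hN, Pi.sub_apply]
    linarith [hFP v]
  have hNY : ∀ w, Y.IsPrime w → N w = bet s w := by
    intro w hw
    obtain ⟨h1, h2⟩ := small_three h s hfil k hk w (hprime w hw)
    obtain ⟨⟨n, hn, h3⟩, -⟩ := Pool.Agent.TH796.C8_XM2.prime_X d h T hT w h1
    have h4 := hadj w hw n hn
    have e3 := Pool.Agent.TH921.FL_GK.ps_sub (w.ord d.c)
    have e4 : mn d w = ps (w.ord d.c) := by
      unfold Sb at h2
      linarith
    simp only [hN, Pi.sub_apply, h4, bt, pr, dv, Pi.add_apply, Pi.smul_apply, smul_eq_mul,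
      Pi.zero_apply]
    rw [h3, e4]
    linear_combination (-(2 / 3) : ℝ) * e3
  have hbet := Pool.Agent.TH246.C8_POS.bet_nef h s
  obtain ⟨f0, f1, f2, fc⟩ := free_three s k hk
  have hNX : ∀ w, IsPrimeOn X w → Sb d w = 0 → N w ≤ bet s w := by
    intro w hw hS
    have hw3 : IsPrimeOn (M3 s k hk) w :=
      Pool.Agent.TH828.FL_SMF.small_from h s hfil k hk f0 f1 fc w hw hS
    by_cases hwY : Y.IsPrime w
    · exact (hNY w hwY).le
    · have h1 := hdisc w hw3 hwY
      rw [Pool.Agent.Y131.IF.Dn_prime h s hfil k hk w hw3] at h1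
      simp only [hN, Pi.sub_apply]
      linarith
  have hge : ∀ v, bet s v ≤ N v := domS hbet hNrc fun w hw => (hNY w hw).ge
  have hyS : ∀ j, vS.ord (s.y j) = 0 := s.triv vS hvS
  have hAkS : ∀ j, Ak s j vS = 0 := by
    intro j
    change Th s (j + 1) vS + Th s j vS = 0
    rw [Pool.Agent.TH573.C8_NEFA.Th_eq, Pool.Agent.TH573.C8_NEFA.Th_eq, hyS, hyS]
    simp
  have hbetS : bet s vS = 0 := by
    change Ak s 2 vS - kap * Ak s 1 vS = 0
    rw [hAkS, hAkS]
    ring
  have haS : vS.ord d.a = 0 := by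
    have := hvS.1 (MvPolynomial.X 0) (X_ne_zero _)
    rwa [aeval_X] at this
  have hSbS : Sb d vS = 1 := by
    have h1 : mn d vS = 0 := by
      rw [mn, haS, Int.cast_zero]
      exact max_eq_left (min_le_left _ _)
    rw [Sb, h1, hvc, ps]
    simp
  have hSbR := rcar_Sb d h
  have hcase : ∀ w, IsPrimeOn X w → N w ≤ bet s w + N vS * Sb d w := by
    intro w hw
    by_cases h0 : Sb d w = 0
    · have h1 := hNX w hw h0
      rw [h0]
      linarith
    · have h1 := (Pool.Agent.TH796.C8_XM2.prime_X d h T hT w hw).2 h0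
      have h2 := huniq w h1
      rw [rcar_congr hNnef.1 h2, rcar_congr hbet.1 h2, rcar_congr hSbR h2, hbetS, hSbS]
      linarith
  have hle := c_step h s vS hvS hvc huniq W N hNnef (N vS) rfl hcase
  have hge' := hge vS
  rw [hbetS] at hge'
  have hzero : N vS = 0 := le_antisymm hle hge'
  have hle' : ∀ v, N v ≤ bet s v := by
    refine dom hNnef hbet.1 fun w hw => ?_
    have := hcase w hw
    rw [hzero] at this
    linarith
  have hYS := b_stepS s vS hvS Y N hNrc fun v => le_antisymm (hle' v) (hge v)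
  obtain ⟨-, h2⟩ := small_three h s hfil k hk vS (hprime vS hYS)
  rw [hSbS] at h2
  norm_num at h2

end Pool.Agent.V1158.SM
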