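import Mathlib
import Pool.Agent.V1158.SM.Defs
import Pool.Agent.TH202.RL
import Pool.Agent.Y181.WLC

/-!
# Projective models are models in the wider sense
-/

set_option autoImplicit false

namespace Pool.Agent.V1158.SM

open Pool.Agent.H436R3.Fol Pool.Agent.TH202 Pool.Agent.Y181

variable {K : Type} [Field K] [Algebra ℂ K] [Algebra.EssFiniteType ℂ K]

theorem ext_self {v v' : DVal K} (h : Ext v v') : ∀ f, f ≠ 0 → v'.ord f = v.ord f := h

/-- The standard affine charts of a projective model. -/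
noncomputable def ofModel (X : Model K) : SpaceModel K where
  ι := Fin (X.n + 1)
  L := fun _ => K
  finite := fun _ => inferInstance
  U := fun i => ⟨X.R i, R_fg (X := X) i, R_frac X i, R_normal X i⟩
  etale := fun _ v' _ => ⟨v', fun _ _ => rfl⟩
  cover := fun v => by
    obtain ⟨i, -, h⟩ := exists_chart X v
    exact ⟨i, v, h, fun _ _ => rfl⟩

theorem isLocalRing_congr {S : Subalgebra ℂ K} {v v' : DVal K} (h : ∀ f, f ≠ 0 → v'.ord f = v.ord f)
    (h1 : IsLocalRing' S v') : IsLocalRing' S v := by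
  have hr : ∀ f, v'.Reg f ↔ v.Reg f := by
    intro f
    by_cases hf : f = 0
    · exact ⟨fun _ => Or.inl hf, fun _ => Or.inl hf⟩
    · constructor
      · intro h2
        right
        rw [← h f hf]
        exact h2.resolve_left hf
      · intro h2
        right
        rw [h f hf]
        exact h2.resolve_left hf
  refine ⟨fun f hf => (hr f).1 (h1.1 f hf), fun f hf => ?_⟩
  obtain ⟨a, b, ha, hb, hb0, hb1, hab⟩ := h1.2 f ((hr f).2 hf)
  exact ⟨a, b, ha, hb, hb0, by rw [← h b hb0]; exact hb1, hab⟩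

theorem ofModel_isPrime (X : Model K) (v : DVal K) :
    (ofModel X).IsPrime v ↔ IsPrimeOn X v := by
  constructor
  · rintro ⟨i, v', h1, h2⟩
    exact ⟨i, isLocalRing_congr (h := h1) h2⟩
  · rintro ⟨i, h⟩
    exact ⟨i, v, fun _ _ => rfl, h⟩

theorem ofModel_isRCar {X : Model K} {D : DVal K → ℝ} (hD : TH202.IsRCar X D) :
    (ofModel X).IsRCar D := by
  intro i p hp
  obtain ⟨P, hP, hPD⟩ := hD ⟨i, p, hp⟩
  refine ⟨P, hP, fun v v' h1 h2 => ?_⟩
  have h3 : (⟨i, p, hp⟩ : Pt X).Thr v' := (Pt.thr_iff _ v').2 ⟨h1.1, h1.2⟩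
  have h4 : (⟨i, p, hp⟩ : Pt X).Thr v := by
    intro f hf
    rcases h3 f hf with h0 | h0
    · exact Or.inl h0
    · by_cases hf0 : f = 0
      · exact Or.inl hf0
      · right
        rw [← ext_self h2 f hf0]
        exact h0
  rw [hPD v h4]
  obtain ⟨m, r, g, hg, hPv⟩ := exists_rep hP
  rw [hPv, hPv]
  exact Finset.sum_congr rfl fun j _ => by rw [ext_self h2 _ (hg j)]

/-- A projective weak log canonical model is a weak model in the wider sense. -/
theorem weak_of_projective {d : ℕ} {T : Foliation K d} {X Y : Model K} {B β D E : DVal K → ℝ}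
    (h : IsWeakLCModel T X B β D Y E) : IsWeakModel T X B β D (ofModel Y) E := by
  obtain ⟨h1, h2, h3, h4⟩ := h
  refine ⟨fun w hw => h1 w ((ofModel_isPrime Y w).1 hw), ⟨ofModel_isRCar h2.1, fun w hw => ?_⟩,
    ⟨Y, h3⟩, fun w hw hn => h4 w hw fun h => hn ((ofModel_isPrime Y w).2 h)⟩
  exact h2.2 w ((ofModel_isPrime Y w).1 hw)

end Pool.Agent.V1158.SM
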